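import Mathlib
import Pool.Agent.TH8.QD.Kod

/-!
MP_2a5ae2_ag, Q1: Zariski-dense holomorphic curves given by linear functional equations, for
instance by linear `q`-difference equations, in projective varieties with a pluricanonical form.
-/

set_option autoImplicit false

namespace Pool.Agent.Results.MP_2a5ae2_ag.FunctionalEquationCurves

open MvPolynomial Metric Set Filter Topology FF
open Pool.Agent.W602.GT Pool.Agent.TH143 Pool.Agent.TH143.GT Pool.Agent.W603.BP
  Pool.Agent.W603.BPR Pool.Agent.W603.GR Pool.Agent.TH8.QD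

/-- Let `X` be the projective variety with the ideal `p`, the function field `K` and the generic
point `y`.

(1) Let `σ` be a holomorphic map from a domain `Ω` to itself with an orbit of infinitely many
different points in a compact subset of `Ω`. Let `S` be an algebra of holomorphic functions on `Ω`
which is closed under composition with `σ`. Let `f` be a Zariski-dense holomorphic map from `Ω` to
`X` whose homogeneous coordinates satisfy nontrivial linear functional equations
`∑ a_k (z) g (σ^k (z)) = 0` with coefficients in `S`. If no map `f ∘ σ^s` is algebraic over `S` then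
`X` is covered by rational curves, and all pluricanonical forms vanish.

Now let `X` have a nonzero pluricanonical form (this is the case if `X` is of general type), let `q`
be a complex number, not zero and not a root of unity, and let `f` be an entire curve in `X`.

(2) If `f` is Zariski-dense and the coordinates satisfy linear `q`-difference equations
`∑ a_k (z) g (q^k z) = 0` with coefficients in an algebra `S` of entire functions which is closed
under substitutions `z ↦ c z`, then `f` is algebraic over `S`; for instance, `S` can consist of the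
entire functions of order at most `lam`.

(3) If the coordinates satisfy linear `q`-difference equations with polynomial coefficients, then
`f` is not Zariski-dense. -/
theorem result {n : ℕ} (p : Ideal (MvPolynomial (Fin (n + 1)) ℂ)) (K : Type) [Field K]
    [Algebra ℂ K] (w : ℕ) (y : Fin (n + 1) → K) (hy : FunField p 1 K w y) :
    (∀ (Ω : Set ℂ) (σ : ℂ → ℂ) (S : Subalgebra ℂ (ℂ → ℂ)) (z0 : ℂ), IsOpen Ω → IsPreconnected Ω →
      AnalyticOnNhd ℂ σ Ω → MapsTo σ Ω Ω → Stable Ω σ S → RelCpt Ω (fun m => σ^[m] z0) →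
      ∀ f : ℂ → Fin (n + 1) → ℂ, (∀ j, AnalyticOnNhd ℂ (fun z => f z j) Ω) →
        (∀ z ∈ Ω, ∀ H ∈ p, eval (f z) H = 0) → (∀ j, FunEq Ω σ S (fun z => f z j)) →
        ZDense p f Ω → ∀ j k, (∃ z ∈ Ω, f z k ≠ 0) →
        (∀ s : ℕ, ¬ AlgQ Ω S (fun x => f (σ^[s] x) j) (fun x => f (σ^[s] x) k)) →
        Covered K ∧ ∀ N, 0 < N → ∀ ω : (Fin w → Derivation ℂ K K) → K,
          Pluricanonical w N ω → ω = 0) ∧
    ((∃ N, 0 < N ∧ ∃ ω : (Fin w → Derivation ℂ K K) → K, Pluricanonical w N ω ∧ ω ≠ 0) →
      ∀ q : ℂ, q ≠ 0 → (∀ m : ℕ, 0 < m → q ^ m ≠ 1) →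
      (∀ S : Subalgebra ℂ (ℂ → ℂ), Dil S → ∀ f, EntireCurve p 1 f →
        (∀ j, FunEq univ (fun z => q * z) S (fun z => f z j)) → ZDense p f univ →
        ∀ j k, (∃ z, f z k ≠ 0) → AlgQ univ S (fun z => f z j) (fun z => f z k)) ∧
      ∀ f, EntireCurve p 1 f → (∀ j, QHol q (fun z => f z j)) → ¬ ZDense p f univ) ∧
    (∀ (lam : ℝ) (hlam : 0 ≤ lam), Dil (Slow lam hlam)) ∧
    (GeneralType ℂ K w →
      ∃ N, 0 < N ∧ ∃ ω : (Fin w → Derivation ℂ K K) → K, Pluricanonical w N ω ∧ ω ≠ 0) := by
  have hQ1 : (1 : MvPolynomial (Fin (n + 1)) ℂ).IsHomogeneous 0 := isHomogeneous_one _ _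
  refine ⟨fun Ω σ S z0 _ hΩc hσa hσm hS hz f hf hX hfe hd j k hk hna =>
    gen_fe hy hΩc hσa hσm hS hz hf hX hfe hd hk hna, ?_, slow_dil, ?_⟩
  · rintro ⟨N, hN, ω, hω, hω0⟩ q hq0 hqr
    refine ⟨?_, ?_⟩
    · intro S hS f hf hfe hd j k hk
      by_contra hna
      exact hω0 ((gen_q hy hS hq0 hqr (ent_data hf).1 (fun z => (hf.2.1 z).2.1) hfe hd hk hna).2 N
        hN ω hω)
    · intro f hf hl hd
      obtain ⟨hdf, hne, hfQ, hnc⟩ := ent_data hf
      have hgp : GenPt f univ K w y := hy.genPt (fun z _ => (hf.2.1 z).2.1) hd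
      obtain ⟨r, hr⟩ := fam_q hq0 hqr hdf hgp hl hQ1 hne hfQ
        ⟨1, 1, one_ne_zero, fun z => by simp⟩ hnc
      apply hω0
      funext D
      exact sec_zero (hgp.inv hdf) hr hN (hω.logSec _) D
  · rintro ⟨-, N, hN, ω, hpl, hreg, D, hD0, -⟩
    exact ⟨N, hN, ω 0, ⟨hpl 0, fun P hP => hreg P hP 0⟩, fun h => hD0 (by rw [h]; rfl)⟩

end Pool.Agent.Results.MP_2a5ae2_ag.FunctionalEquationCurves
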