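import Mathlib
import Pool.Agent.TH143.GT.Kod

/-!
MP_2a5ae2_ag, Q1: Zariski-dense holomorphic curves given by linear differential equations in
projective varieties with a pluricanonical form.
-/

set_option autoImplicit false

namespace Pool.Agent.Results.MP_2a5ae2_ag.LinearCurvesKodaira

open MvPolynomial Metric Set Filter Topology FF
open Pool.Agent.W602.GT Pool.Agent.TH143 Pool.Agent.TH143.GT Pool.Agent.W603.BP
  Pool.Agent.W603.BPR Pool.Agent.W603.GR

/-- Let `X` be the projective variety with the ideal `p`, the function field `K` and the generic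
point `y`. Let `f` be a Zariski-dense holomorphic map from a domain `Ω` to `X` whose homogeneous
coordinates satisfy nontrivial linear differential equations with coefficients in a ring `B` of
holomorphic functions on `Ω` which is closed under differentiation.

(1) If `f` is not algebraic over `B` then `X` is covered by rational curves, and all pluricanonical
forms vanish. So let `X` have a nonzero pluricanonical form (this is the case if `X` is of general
type), that is, let the Kodaira dimension be nonnegative. Then: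

(2) `f` is algebraic over `B`; for instance, if `f` is an entire curve and the coefficients are
entire functions of order at most `lam`, then `f` is algebraic over such functions.

(3) Entire curves whose coordinates satisfy linear differential equations with polynomial
coefficients are not Zariski-dense, and Zariski-dense maps from the punctured disc whose coordinates
satisfy linear differential equations with coefficients meromorphic at the origin extend. -/
theorem result {n : ℕ} (p : Ideal (MvPolynomial (Fin (n + 1)) ℂ)) (K : Type) [Field K]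
    [Algebra ℂ K] (w : ℕ) (y : Fin (n + 1) → K) (hy : FunField p 1 K w y) :
    (∀ (Ω : Set ℂ) (B : Subalgebra ℂ (ℂ → ℂ)), IsOpen Ω → IsPreconnected Ω → DiffRing Ω B →
      ∀ f : ℂ → Fin (n + 1) → ℂ, (∀ j, AnalyticOnNhd ℂ (fun z => f z j) Ω) →
        (∀ z ∈ Ω, ∀ H ∈ p, eval (f z) H = 0) → (∀ j, LinOver Ω B (fun z => f z j)) →
        ZDense p f Ω → ∀ j k, (∃ z ∈ Ω, f z k ≠ 0) →
        ¬ AlgOver Ω B (fun z => f z j) (fun z => f z k) →
        Covered K ∧ ∀ N, 0 < N → ∀ ω : (Fin w → Derivation ℂ K K) → K,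
          Pluricanonical w N ω → ω = 0) ∧
    ((∃ N, 0 < N ∧ ∃ ω : (Fin w → Derivation ℂ K K) → K, Pluricanonical w N ω ∧ ω ≠ 0) →
      (∀ (Ω : Set ℂ) (B : Subalgebra ℂ (ℂ → ℂ)), IsOpen Ω → IsPreconnected Ω → DiffRing Ω B →
        ∀ f : ℂ → Fin (n + 1) → ℂ, (∀ j, AnalyticOnNhd ℂ (fun z => f z j) Ω) →
          (∀ z ∈ Ω, ∀ H ∈ p, eval (f z) H = 0) → (∀ j, LinOver Ω B (fun z => f z j)) →
          ZDense p f Ω → ∀ j k, (∃ z ∈ Ω, f z k ≠ 0) →
          AlgOver Ω B (fun z => f z j) (fun z => f z k)) ∧
      (∀ (lam : ℝ) (hlam : 0 ≤ lam), DiffRing univ (Slow lam hlam)) ∧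
      (∀ f, EntireCurve p 1 f → (∀ j, PolODE (fun z => f z j)) → ¬ ZDense p f univ) ∧
      ∀ f, PCurve p 1 f → (∀ j, LinODE (fun z => f z j)) → ZDense p f (ball 0 1 \ {0}) →
        Extends f) ∧
    (GeneralType ℂ K w →
      ∃ N, 0 < N ∧ ∃ ω : (Fin w → Derivation ℂ K K) → K, Pluricanonical w N ω ∧ ω ≠ 0) := by
  have hQ1 : (1 : MvPolynomial (Fin (n + 1)) ℂ).IsHomogeneous 0 := isHomogeneous_one _ _
  refine ⟨fun Ω B hΩ hΩc hB f hf hX hlin hd j k hk hna =>
    gen_main hy hΩ hΩc hB hf hX hlin hd hk hna, ?_, ?_⟩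
  · rintro ⟨N, hN, ω, hω, hω0⟩
    refine ⟨?_, slow_diffRing, ?_, ?_⟩
    · intro Ω B hΩ hΩc hB f hf hX hlin hd j k hk
      by_contra hna
      exact hω0 ((gen_main hy hΩ hΩc hB hf hX hlin hd hk hna).2 N hN ω hω)
    · intro f hf hl hd
      obtain ⟨hdf, hne, hfQ, hnc⟩ := ent_data hf
      have hgp : GenPt f univ K w y := hy.genPt (fun z _ => (hf.2.1 z).2.1) hd
      obtain ⟨r, hr⟩ := fam_of_entire hgp hdf hne (linSys_of_polODE f hdf hl) hQ1 hfQ hnc
      apply hω0
      funext D
      exact sec_zero (hgp.inv hdf) hr hN (hω.logSec _) D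
    · intro f hf hl hd
      have hset : ∀ z : ℂ, z ∈ ball (0 : ℂ) 1 \ {0} ↔ z ∈ PB 1 := fun z => mem_disc
      have hd' : ZDense p f (PB 1) := fun H hH h => hd H hH fun z hz => h z ((hset z).1 hz)
      have hgp : GenPt f (PB 1) K w y := hy.genPt
        (fun z hz => (hf.2 z ((hset z).2 hz)).2.1) hd'
      by_contra hext
      obtain ⟨r, hr⟩ := fam_of_ess hgp hf.an (fun w hw => (hf.2 w ((hset w).2 hw)).1)
        (linSys_of_linODE f one_pos hf.an hl) hQ1 (fun z hz => (hf.2 z ((hset z).2 hz)).2.2) hext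
      apply hω0
      funext D
      exact sec_zero hgp hr hN (hω.logSec _) D
  · rintro ⟨-, N, hN, ω, hpl, hreg, D, hD0, -⟩
    exact ⟨N, hN, ω 0, ⟨hpl 0, fun P hP => hreg P hP 0⟩, fun h => hD0 (by rw [h]; rfl)⟩

end Pool.Agent.Results.MP_2a5ae2_ag.LinearCurvesKodaira
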