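import Mathlib
import Pool.Agent.TH710.NW.Mono3

/-!
MP_2a5ae2_ag, Q1: projective varieties of nonnegative Kodaira dimension given by nested sums of few
high powers of monomials are pseudo-Brody hyperbolic.
-/

set_option autoImplicit false

namespace Pool.Agent.Results.MP_2a5ae2_ag.NestedMonomials

open MvPolynomial Pool.Agent.W602.GT Pool.Agent.TH143.GT
open Pool.Agent.H159R3.GGL (Irred PseudoBrody Preserves ActsTrivially)
open Pool.Agent.TH710.NW (TowerM FunctionField)

/-- Let `X` be an irreducible projective variety given by finitely many forms that are nested sums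
(of any depth) of few high powers of monomials. Then `X` is pseudo-Brody hyperbolic if and only if
every diagonal one-parameter group that preserves `X` acts trivially on `X`. If `X` is not
pseudo-Brody hyperbolic then it is covered by rational curves and all its pluricanonical forms
vanish. In particular `X` is pseudo-Brody hyperbolic if it is of general type. -/
theorem result {n : ℕ} {ι : Type} [Finite ι] (F : ι → MvPolynomial (Fin (n + 1)) ℂ)
    (hF : ∀ i, ∃ d, (F i).IsHomogeneous d) (hC : ∀ i, TowerM (F i)) (hirr : Irred F) :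
    (PseudoBrody F ↔ ∀ b : Fin (n + 1) → ℤ, Preserves b F → ActsTrivially b F) ∧
    ∀ (K : Type) [Field K] [Algebra ℂ K] (w : ℕ) (y : Fin (n + 1) → K),
      FunctionField F K w y →
      (¬ PseudoBrody F → Covered K ∧ ∀ N, 0 < N → ∀ ω : (Fin w → Derivation ℂ K K) → K,
        Pluricanonical w N ω → ω = 0) ∧
      (GeneralType ℂ K w → PseudoBrody F) := by
  refine ⟨Pool.Agent.TH710.NW.mainM F hF hC hirr, fun K _ _ w y hy => ⟨fun h =>
    Pool.Agent.TH710.NW.covered_of_not_brody F hF hC hirr h hy, ?_⟩⟩
  rintro ⟨-, N, hN, ω, hpl, hreg, D, hD0, -⟩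
  by_contra h
  apply hD0
  rw [(Pool.Agent.TH710.NW.covered_of_not_brody F hF hC hirr h hy).2 N hN (ω 0)
    ⟨hpl 0, fun P hP => hreg P hP 0⟩]
  rfl

end Pool.Agent.Results.MP_2a5ae2_ag.NestedMonomials
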