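import Pool.Agent.TH152.HY.Brody

/-!
# The Green-Griffiths-Lang conjecture for covers of projective space, with a uniform bound

Let `ℓ i = 0` be `q` hyperplanes in projective `n`-space, an arbitrary arrangement, and let `X` be an
irreducible abelian cover of projective space, given by the equations
`y k ^ m k = ∏ i, ℓ i (x) ^ e k i`, which is branched over the arrangement. Suppose that all its
multiplicities over the arrangement are greater than `n (n + 1) (n + 2) / 2`, a bound which does not
depend on the number `q` of hyperplanes and on their position. Then `X` is pseudo-Brody hyperbolic if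
and only if it is of general type, if and only if the arrangement is not reducible.

`Cover`, `Cover.Free`, `Cover.Irred`, `Cover.FunctionField`, `Cover.EntireCurve`,
`Cover.PseudoBrody`, `Reducible` and `Flat` are in `Pool/Agent/W602/Cov`; `GeneralType`, `KodGe`
and `Ruled` (properties of the function field `K` of `X`) are in `Pool/Agent/W602/GT`:
`KodGe ℂ K n (fun _ => False) 0` says that `κ(X) ≥ 0`, and `Ruled ℂ K` that `X` is birational to
`B × ℙ¹` for some `B`.
-/

set_option autoImplicit false

open FF Pool.Agent.W602.Cov Pool.Agent.W602.GT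

namespace Pool.Agent.Results.MP_2a5ae2_ag.UniformArrangementCovers

/-- The multiplicities of the cover `X` are at least `m`: whenever a germ of a curve in projective
space through a point of the arrangement meets the hyperplane `ℓ i = 0` with multiplicity `v i`, and
these multiplicities are compatible with the equations `y k ^ m k = ∏ i, ℓ i (x) ^ e k i` of `X`, at
least one of them is at least `m`. -/
def Multiplicities {n q r : ℕ} (X : Cover n q r) (m : ℕ) : Prop :=
  ∀ v : Fin q → ℕ, v ≠ 0 → (∃ x : Fin (n + 1) → ℂ, x ≠ 0 ∧ ∀ i, v i ≠ 0 → X.ℓ i x = 0) →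
    (∀ k, X.m k ∣ ∑ i, X.e k i * v i) → ∃ i, m ≤ v i

/-- Let `X` be an irreducible abelian cover of projective `n`-space over an arbitrary arrangement,
all of whose multiplicities are at least `m > n (n + 1) (n + 2) / 2`. Then `X` is pseudo-Brody
hyperbolic if and only if it is of general type, if and only if `κ(X) ≥ 0`, if and only if it is not
ruled, if and only if the arrangement is not reducible. In that case every entire curve in `X` lies
over one of the hyperplanes, or over one of the finitely many linear subspaces spanned by the two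
flats of complementary sets of hyperplanes, and all of these are proper subspaces. -/
theorem result (n q r m : ℕ) (hn : 1 ≤ n) (hm : n * (n + 1) * (n + 2) < 2 * m) (X : Cover n q r)
    (hR : Multiplicities X m) (hF : X.Free) (hI : X.Irred)
    (K : Type) [Field K] [Algebra ℂ K] (x : Fin (n + 1) → K) (y : Fin r → K)
    (hK : X.FunctionField K x y) :
    [X.PseudoBrody, GeneralType ℂ K n, KodGe ℂ K n (fun _ => False) 0, ¬ Ruled ℂ K,
      ¬ Reducible X.ℓ].TFAE ∧
    (¬ Reducible X.ℓ →
      (∀ κ : Finset (Fin q), κ.Nonempty → κ ≠ Finset.univ → Flat X.ℓ κ ⊔ Flat X.ℓ κᶜ ≠ ⊤) ∧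
      ∀ x y, X.EntireCurve x y →
        (∃ i, ∀ z, X.ℓ i (x z) = 0) ∨
        ∃ κ : Finset (Fin q), κ.Nonempty ∧ κ ≠ Finset.univ ∧
          ∀ z, x z ∈ Flat X.ℓ κ ⊔ Flat X.ℓ κᶜ) := by
  have h3 : n + 3 ≤ m := by
    have h1 : 2 ≤ n * (n + 1) := by nlinarith
    have h2 : 2 * (n + 2) ≤ n * (n + 1) * (n + 2) := Nat.mul_le_mul_right _ h1
    omega
  have hm3 : Pool.Agent.TH152.AC.Mult X (n + 3) := fun v h1 h2 h4 => by
    obtain ⟨i, hi⟩ := hR v h1 h2 h4
    exact ⟨i, h3.trans hi⟩
  have hm2 : Pool.Agent.TH152.AC.Mult X (n + 2) := fun v h1 h2 h4 => by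
    obtain ⟨i, hi⟩ := hm3 v h1 h2 h4
    exact ⟨i, by omega⟩
  have hd := Pool.Agent.TH152.AC.dichotomy hn X hF hK hm3
  have ht := Pool.Agent.TH152.AC.tfae hn X hF hK hm2
  constructor
  · have hA : X.PseudoBrody ↔ ¬ Reducible X.ℓ :=
      ⟨fun h hred => X.not_pseudoBrody hI hred h,
        fun h => Pool.Agent.TH152.HY.cover_brody X hm hR h⟩
    have hB : GeneralType ℂ K n ↔ ¬ Reducible X.ℓ := by
      rcases hd with ⟨h1, -, h2⟩ | ⟨h1, -, h2⟩
      · exact ⟨fun h => absurd h h2, fun h => absurd h1 h⟩
      · exact ⟨fun _ => h1, fun _ => h2⟩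
    have hC : KodGe ℂ K n (fun _ => False) 0 ↔ ¬ Reducible X.ℓ := by
      have := ht.out 0 3
      tauto
    have hD : ¬ Ruled ℂ K ↔ ¬ Reducible X.ℓ := by
      have := ht.out 2 3
      tauto
    tfae_have 1 ↔ 5 := hA
    tfae_have 2 ↔ 5 := hB
    tfae_have 3 ↔ 5 := hC
    tfae_have 4 ↔ 5 := hD
    tfae_finish
  · intro hirr
    exact ⟨fun κ h1 h2 => flat_ne_top X.hℓ hirr h1 h2,
      fun x y hxy => Pool.Agent.TH152.HY.cover_curve X hm hR hirr hxy⟩

end Pool.Agent.Results.MP_2a5ae2_ag.UniformArrangementCovers
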